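import Pool.Agent.C4U.Stmts

/-!
# Squad C4U, row PRN: one step as a generator
-/

set_option autoImplicit false

namespace Pool.Agent.C4U.H5

open Pool.Agent.Helper53_CookLevin (PGen)
open Pool.Agent.Helper53_Chan (Test)
open Pool.Agent.C4F (Lt cn NumF Kit)
open Pool.Agent.C4U

theorem num_ite {r : ℕ} {P : (Fin r → List Lt) → Prop} [∀ ρ, Decidable (P ρ)]
    {a b : (Fin r → List Lt) → ℕ} (hP : Test r P) (ha : NumF r a) (hb : NumF r b) :
    NumF r (fun ρ => if P ρ then a ρ else b ρ) := by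
  refine Pool.Agent.Helper53_Chan.PGen.congr
    (Pool.Agent.Helper53_Chan.Test.ite hP ha hb) fun ρ => ?_
  by_cases h : P ρ
  · simp only [if_pos h]
  · simp only [if_neg h]

open Classical in
theorem nC_eq (V : Gr) (c : ℕ → ℕ) (e : ℕ) :
    V.nC c e = if V.Impr then c e else if V.Ok c then (if e = ln V.dd c then 1 else c e)
      else if e + 1 < mm V.dd (V.N + 1) c then c e
      else if e + 1 = mm V.dd (V.N + 1) c then c e + 1 else 0 := by
  unfold Gr.nC
  by_cases h : V.Impr
  · rw [if_pos h, if_pos h]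
  · rw [if_neg h, if_neg h]
    rfl

theorem num_nC (K : Kit) (hpra : PraStmt) (hpro : ProStmt) (hpri : PriStmt) (r : ℕ)
    (E : Fin 5 → Fin r) (e : (Fin r → List Lt) → ℕ) (he : NumF r e) :
    NumF r (fun ρ => (rd (At E ρ)).nC (rc (At E ρ)) (e ρ)) := by
  classical
  obtain ⟨-, hN, hdd, -, hxy⟩ := hpra K r E
  obtain ⟨hln, hmm, hok⟩ := hpro K r E
  obtain ⟨himp, -⟩ := hpri K r E
  have hc : NumF r (fun ρ => rc (At E ρ) (e ρ)) := (hxy e e he he).2.2.2.1
  have h1 : NumF r (fun ρ => e ρ + 1) := K.add r e (fun _ => 1) he (K.cst r 1)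
  have hc1 : NumF r (fun ρ => rc (At E ρ) (e ρ) + 1) := K.add r _ (fun _ => 1) hc (K.cst r 1)
  have h2 := num_ite (K.eq r _ _ he hln) (K.cst r 1) hc
  have h3 := num_ite (K.eq r _ _ h1 hmm) hc1 (K.cst r 0)
  have h4 := num_ite (K.lt r _ _ h1 hmm) hc h3
  have h5 := num_ite hok h2 h4
  have h6 := num_ite himp hc h5
  refine Pool.Agent.Helper53_Chan.PGen.congr h6 fun ρ => ?_
  exact congrArg (fun n => List.replicate n Lt.tick) (nC_eq (rd (At E ρ)) (rc (At E ρ)) (e ρ)).symm

/-- **PRN** -/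
theorem prn (hpra : PraStmt) (hpro : ProStmt) (hpri : PriStmt) : PrnStmt := by
  classical
  intro K
  obtain ⟨hk, hN, hdd, hcn, -⟩ := hpra K 5 id
  obtain ⟨hln, hmm, hok⟩ := hpro K 5 id
  obtain ⟨himp, -⟩ := hpri K 5 id
  have hN1 : NumF 5 (fun w : Fin 5 → List Lt => (rd (At id w)).N + 1) :=
    K.add 5 _ (fun _ => 1) hN (K.cst 5 1)
  refine ⟨?_, ?_, ?_⟩
  · -- the new words
    have hj : PGen 5 (fun w : Fin 5 → List Lt => (List.range (rd (At id w)).N).flatMap
        fun v => if (rd w).nV.J v then [Lt.pos] else [Lt.neg]) := by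
      refine K.loop 5 _ (fun v (w : Fin 5 → List Lt) =>
        if (rd w).nV.J v then [Lt.pos] else [Lt.neg]) hN ?_
      have h1 := (hpri K 6 Fin.succ).2 (fun ρ => (ρ 0).length) (K.var 6 0)
      exact Pool.Agent.Helper53_Chan.Test.ite h1 (PGen.const _) (PGen.const _)
    have hc : PGen 5 (fun w : Fin 5 → List Lt => (List.range (rd (At id w)).dd).flatMap
        fun e => (List.range ((rd (At id w)).N + 1)).flatMap
          fun u => if u < (rd (At id w)).nC (rc (At id w)) e then [Lt.tick] else [Lt.neg]) := by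
      refine K.loop 5 _ (fun e (w : Fin 5 → List Lt) =>
        (List.range ((rd (At id w)).N + 1)).flatMap
          fun u => if u < (rd (At id w)).nC (rc (At id w)) e then [Lt.tick] else [Lt.neg]) hdd ?_
      have hN6 : NumF 6 (fun ρ : Fin 6 → List Lt =>
          (rd (At Fin.succ ρ)).N + 1) :=
        K.add 6 _ (fun _ => 1) (hpra K 6 Fin.succ).2.1 (K.cst 6 1)
      refine K.loop 6 _ (fun u (ρ : Fin 6 → List Lt) =>
        if u < (rd (At Fin.succ ρ)).nC (rc (At Fin.succ ρ)) (ρ 0).length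
          then [Lt.tick] else [Lt.neg]) hN6 ?_
      have h7 := num_nC K hpra hpro hpri 7 (fun i => i.succ.succ) (fun ρ => (ρ 1).length)
        (K.var 7 1)
      exact Pool.Agent.Helper53_Chan.Test.ite (K.lt 7 _ _ (K.var 7 0) h7) (PGen.const _)
        (PGen.const _)
    have hbar : PGen 5 (fun _ : Fin 5 → List Lt => [Lt.bar]) := PGen.const _
    have h := PGen.append (Pool.Agent.Helper53_Chan.PGen.var (C := Lt) (0 : Fin 5))
      (PGen.append hbar (PGen.append (Pool.Agent.Helper53_Chan.PGen.var (C := Lt) (1 : Fin 5))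
      (PGen.append hbar (PGen.append (Pool.Agent.Helper53_Chan.PGen.var (C := Lt) (2 : Fin 5))
      (PGen.append hbar (PGen.append hj (PGen.append hbar hc)))))))
    refine Pool.Agent.Helper53_Chan.PGen.congr h fun w => ?_
    have e1 : jw (rd w).N (rd w).nV.J = (List.range (rd (At id w)).N).flatMap
        fun v => if (rd w).nV.J v then [Lt.pos] else [Lt.neg] := by
      rw [jw, List.map_eq_flatMap]
      refine List.flatMap_congr fun v _ => ?_
      by_cases hv : (rd w).nV.J v
      · rw [if_pos hv, if_pos hv]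
      · rw [if_neg hv, if_neg hv]
    have e2 : cw (rd w).dd ((rd w).N + 1) ((rd w).nC (rc w)) =
        (List.range (rd (At id w)).dd).flatMap
        fun e => (List.range ((rd (At id w)).N + 1)).flatMap
          fun u => if u < (rd (At id w)).nC (rc (At id w)) e then [Lt.tick] else [Lt.neg] := by
      rw [cw]
      refine List.flatMap_congr fun e _ => ?_
      rw [List.map_eq_flatMap]
      refine List.flatMap_congr fun u _ => ?_
      by_cases hv : u < (rd w).nC (rc w) e
      · rw [if_pos hv]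
        exact (if_pos hv).symm
      · rw [if_neg hv]
        exact (if_neg hv).symm
    have e3 : jn (nw w) = w 0 ++ Lt.bar :: (w 1 ++ Lt.bar :: (w 2 ++ Lt.bar ::
        (jw (rd w).N (rd w).nV.J ++ Lt.bar ::
          cw (rd w).dd ((rd w).N + 1) ((rd w).nC (rc w))))) := rfl
    rw [e3, e1, e2]
    rfl
  · -- the condition
    have h1 := K.not 5 _ (K.le 5 _ _ hk hcn)
    have h2 := K.and 5 _ _ hok (K.lt 5 _ _ hln hdd)
    have h3 := K.and 5 _ _ (K.not 5 _ hok) (K.lt 5 _ _ (K.cst 5 0) hmm)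
    exact K.and 5 _ _ h1 (K.or 5 _ _ himp (K.or 5 _ _ h2 h3))
  · -- the answer
    have h1 := K.or 5 _ _ (K.le 5 _ _ hk hcn) hok
    exact Pool.Agent.Helper53_Chan.Test.ite h1 (PGen.const _) (PGen.const _)

end Pool.Agent.C4U.H5
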